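import Pool.Agent.Helper11.BL.Sums

/-!
# All graphs: powers of matrices with entries of any sign from powers of nonnegative matrices
-/

open Finset Pool.Agent.Helper71.CE Pool.Agent.Helper88.CE

namespace Pool.Agent.Helper11.BL

theorem pw_mul_self (b a : ℝ) : pw b (a * a) = ph (2 * b) a := by
  rw [ph, pw, pw]
  by_cases h : a = 0
  · rw [h, mul_zero, abs_zero, if_pos rfl, if_pos rfl]
  · have h1 : a * a ≠ 0 := mul_ne_zero h h
    have h2 : |a| ≠ 0 := abs_ne_zero.2 h
    rw [if_neg h1, if_neg h2, Real.rpow_mul (abs_nonneg a), ← abs_mul_abs_self a]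
    congr 1
    rw [← sq]
    exact (Real.rpow_two _).symm

/-- if all powers `b ≥ a` preserve positivity for nonnegative matrices with pattern `H`, then all odd
powers `β ≥ 2 a + 1` do so for matrices with entries of any sign -/
theorem FP.of_pow {ι : Type*} [Fintype ι] {H : SimpleGraph ι} {a β : ℝ}
    (h : ∀ A, InPG H A → ∀ b : ℝ, a ≤ b → Psd (hpow A b)) (hβ : 2 * a + 1 ≤ β) :
    FP H Set.univ β := by
  intro A hA hAG _
  have hB : InPG H (fun i j => A i j * A i j) :=
    ⟨hA.hadamard hA, fun i j => mul_self_nonneg _, fun i j hij hn => by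
      show A i j * A i j = 0
      rw [hAG i j hij hn, mul_zero]⟩
  have h1 := hA.hadamard (h _ hB ((β - 1) / 2) (by linarith))
  have e : (fun i j => sp β (A i j)) =
      fun i j => A i j * hpow (fun i j => A i j * A i j) ((β - 1) / 2) i j := by
    funext i j
    show sp β (A i j) = A i j * Pool.Agent.Helper71.CE.pw ((β - 1) / 2) (A i j * A i j)
    rw [pw_mul_self, sp_eq_mul_ph, show 2 * ((β - 1) / 2) = β - 1 by ring]
  rw [e]
  exact h1

end Pool.Agent.Helper11.BL
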