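import Pool.Agent.Helper88.CE.Depth

/-!
# Signed powers and cones with a signed row
-/

open Finset Pool.Agent.Helper71.CE

namespace Pool.Agent.Helper11.BL

/-- the odd power `sign(a) |a|^β` -/
noncomputable def sp (β a : ℝ) : ℝ := a * pw (β - 1) |a|

/-- the even power `|a|^β` -/
noncomputable def ph (β a : ℝ) : ℝ := pw β |a|

/-- the odd power `β` preserves positivity for matrices on the cone over `G[S]` which are
nonnegative outside the row of the cone vertex -/
def SC {V : Type*} [Fintype V] (G : SimpleGraph V) (S : Set V) (β : ℝ) : Prop :=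
  ∀ M : Option V → Option V → ℝ, Psd M → (∀ i j, 0 ≤ M (some i) (some j)) →
    (∀ i j, i ≠ j → ¬ G.Adj i j → M (some i) (some j) = 0) →
    (∀ i, i ∉ S → M (some i) (some i) = 0) → Psd (fun a b => sp β (M a b))

/-- the power `β` preserves positivity for nonnegative matrices on `G[S]` -/
def PW {V : Type*} [Fintype V] (G : SimpleGraph V) (S : Set V) (β : ℝ) : Prop :=
  ∀ A : V → V → ℝ, InPG G A → (∀ i, i ∉ S → A i i = 0) → Psd (hpow A β)

/-- signed FitzGerald–Horn -/
def SFH (V : Type*) [Fintype V] : Prop :=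
  ∀ A : V → V → ℝ, Psd A → ∀ β : ℝ, 0 < β → (Fintype.card V : ℝ) - 2 < β →
    Psd (fun i j => ph β (A i j)) ∧ Psd (fun i j => sp β (A i j))

end Pool.Agent.Helper11.BL
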