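import Pool.Agent.Helper11.BL.SFH

/-!
# Splitting at a separator, and gluing at a vertex
-/

open Finset Pool.Agent.Helper71.CE

namespace Pool.Agent.Helper11.BL

open scoped MatrixOrder in
/-- positive semidefinite matrices are Gram matrices -/
theorem exists_gram {ι : Type*} [Fintype ι] {M : ι → ι → ℝ} (hM : Psd M) :
    ∃ u : ι → EuclideanSpace ℝ ι, ∀ i j, M i j = inner ℝ (u i) (u j) := by
  classical
  have h := (psd_iff M).1 hM
  obtain ⟨B, hB⟩ := CStarAlgebra.nonneg_iff_eq_star_mul_self.mp h.nonneg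
  refine ⟨fun i => WithLp.toLp 2 fun k => B k i, fun i j => ?_⟩
  have h2 : M i j = (Matrix.conjTranspose B * B) i j := by
    rw [← Matrix.star_eq_conjTranspose, ← hB]
    rfl
  rw [h2, Matrix.mul_apply, PiLp.inner_apply]
  refine Finset.sum_congr rfl fun k _ => ?_
  simp [Matrix.conjTranspose_apply, mul_comm]

theorem psd_of_gram {ι E : Type*} [Fintype ι] [NormedAddCommGroup E] [InnerProductSpace ℝ E]
    (u : ι → E) : Psd (fun i j => inner ℝ (u i) (u j)) := by
  refine ⟨fun i j => real_inner_comm _ _, fun x => ?_⟩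
  have h : qf (fun i j => inner ℝ (u i) (u j)) x =
      inner ℝ (∑ i, x i • u i) (∑ j, x j • u j) := by
    rw [qf, sum_inner]
    refine Finset.sum_congr rfl fun i _ => ?_
    rw [inner_sum]
    refine Finset.sum_congr rfl fun j _ => ?_
    rw [inner_smul_left, inner_smul_right]
    show x i * inner ℝ (u i) (u j) * x j = x i * (x j * inner ℝ (u i) (u j))
    ring
  rw [h]
  exact real_inner_self_nonneg

/-- splitting of a positive semidefinite matrix at a separator -/
theorem split {ι : Type*} [Fintype ι] {M : ι → ι → ℝ} (hM : Psd M) (P Q : ι → Prop)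
    (h : ∀ i j, P i → Q j → M i j = 0) : ∃ M1 M2 : ι → ι → ℝ, Psd M1 ∧ Psd M2 ∧
      (∀ i j, M i j = M1 i j + M2 i j) ∧ (∀ i j, P i → M2 i j = 0) ∧ ∀ i j, Q i → M1 i j = 0 := by
  classical
  obtain ⟨u, hu⟩ := exists_gram hM
  set K : Submodule ℝ (EuclideanSpace ℝ ι) := Submodule.span ℝ {x | ∃ i, P i ∧ u i = x} with hK
  have hmem : ∀ i, P i → u i ∈ K := fun i hi => Submodule.subset_span ⟨i, hi, rfl⟩
  have horth : ∀ j, Q j → u j ∈ Kᗮ := by
    intro j hj
    rw [Submodule.mem_orthogonal]
    intro x hx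
    induction hx using Submodule.span_induction with
    | mem x hx =>
      obtain ⟨i, hi, rfl⟩ := hx
      rw [← hu]
      exact h i j hi hj
    | zero => exact inner_zero_left _
    | add x y _ _ hx hy => rw [inner_add_left, hx, hy, add_zero]
    | smul a x _ hx => rw [inner_smul_left, hx, mul_zero]
  let p : ι → EuclideanSpace ℝ ι := fun i => K.starProjection (u i)
  let q : ι → EuclideanSpace ℝ ι := fun i => u i - p i
  have hp : ∀ i, p i ∈ K := fun i => Submodule.starProjection_apply_mem _ _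
  have hq : ∀ i, q i ∈ Kᗮ := fun i => Submodule.sub_starProjection_mem_orthogonal _
  refine ⟨fun i j => inner ℝ (p i) (p j), fun i j => inner ℝ (q i) (q j), psd_of_gram p,
    psd_of_gram q, fun i j => ?_, fun i j hi => ?_, fun i j hi => ?_⟩
  · have e1 : u i = p i + q i := by simp [q]
    have e2 : u j = p j + q j := by simp [q]
    have h1 : inner ℝ (p i) (q j) = (0 : ℝ) := Submodule.inner_right_of_mem_orthogonal (hp i) (hq j)
    have h2 : inner ℝ (q i) (p j) = (0 : ℝ) := Submodule.inner_left_of_mem_orthogonal (hp j) (hq i)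
    show M i j = inner ℝ (p i) (p j) + inner ℝ (q i) (q j)
    rw [hu, e1, e2, inner_add_left, inner_add_right, inner_add_right, h1, h2]
    ring
  · have e : q i = 0 := by
      show u i - K.starProjection (u i) = 0
      rw [Submodule.starProjection_eq_self_iff.2 (hmem i hi), sub_self]
    show inner ℝ (q i) (q j) = (0 : ℝ)
    rw [e, inner_zero_left]
  · have e : p i = 0 := by
      show K.starProjection (u i) = 0
      rw [Submodule.starProjection_apply_eq_zero_iff]
      exact horth i hi
    show inner ℝ (p i) (p j) = (0 : ℝ)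
    rw [e, inner_zero_left]

theorem row_zero {ι : Type*} [Fintype ι] {A : ι → ι → ℝ} (hA : Psd A) {i : ι} (h0 : A i i = 0)
    (j : ι) : A i j = 0 := by
  have h := hA.minor i j
  rw [h0, zero_mul] at h
  exact pow_eq_zero_iff (two_ne_zero) |>.1 (le_antisymm h (sq_nonneg _))

/-- matrices supported on a set of indices -/
theorem psd_of_supported {ι : Type*} [Fintype ι] {E : ι → ι → ℝ} (hs : ∀ i j, E i j = E j i)
    (F : Finset ι) (h0 : ∀ i j, i ∉ F → E i j = 0) (h : Psd (fun i j : F => E i j)) : Psd E := by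
  refine ⟨hs, fun x => ?_⟩
  have h2 := h.2 (fun i => x i)
  have h3 : qf E x = qf (fun i j : F => E i j) (fun i => x i) := by
    simp only [qf]
    rw [Finset.sum_coe_sort F (fun i => ∑ j : F, x i * E i j * x j)]
    rw [← Finset.sum_subset (Finset.subset_univ F) (fun i _ hi => ?_)]
    · refine Finset.sum_congr rfl fun i _ => ?_
      rw [Finset.sum_coe_sort F (fun j => x i * E i j * x j)]
      rw [← Finset.sum_subset (Finset.subset_univ F) (fun j _ hj => ?_)]
      rw [hs i j, h0 j i hj]; ring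
    · refine Finset.sum_eq_zero fun j _ => ?_
      rw [h0 i j hi]; ring
  rw [h3]; exact h2

/-- splitting at a vertex: the two parts, for matrices which vanish off `S ∪ T` -/
theorem split_vertex {ι : Type*} [Fintype ι] {M : ι → ι → ℝ} (hM : Psd M) {S T : Set ι}
    (h : ∀ a b, a ∈ S → b ∈ T → a ∉ T → b ∉ S → M a b = 0) (h0 : ∀ i, i ∉ S → i ∉ T → M i i = 0) :
    ∃ M1 M2 : ι → ι → ℝ, Psd M1 ∧ Psd M2 ∧ (∀ i j, M i j = M1 i j + M2 i j) ∧
      (∀ i j, i ∉ S → M1 i j = 0) ∧ (∀ i j, i ∉ T → M2 i j = 0) := by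
  obtain ⟨M1, M2, h1, h2, hs, hP, hQ⟩ := split hM (fun i => i ∈ S ∧ i ∉ T) (fun i => i ∈ T ∧ i ∉ S)
    (fun i j hi hj => h i j hi.1 hj.1 hi.2 hj.2)
  have hz : ∀ i, i ∉ S → i ∉ T → M1 i i = 0 ∧ M2 i i = 0 := by
    intro i hi hi'
    have e := hs i i
    rw [h0 i hi hi'] at e
    have a := h1.diag_nonneg i
    have b := h2.diag_nonneg i
    exact ⟨by linarith, by linarith⟩
  refine ⟨M1, M2, h1, h2, hs, fun i j hi => ?_, fun i j hi => ?_⟩
  · by_cases hT : i ∈ T
    · exact hQ i j ⟨hT, hi⟩
    · exact row_zero h1 (hz i hi hT).1 j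
  · by_cases hS : i ∈ S
    · exact hP i j ⟨hS, hi⟩
    · exact row_zero h2 (hz i hS hi).2 j

/-- gluing at a vertex -/
theorem SC.glue {V : Type*} [Fintype V] {G : SimpleGraph V} {S T : Set V} (v : V)
    (hv : S ∩ T ⊆ {v}) (h : ∀ a ∈ S, ∀ b ∈ T, G.Adj a b → a ∈ T ∨ b ∈ S) {β : ℝ} (hβ : 2 < β)
    (hS : SC G S β) (hT : SC G T β) : SC G (S ∪ T) β := by
  classical
  intro M hM hM0 hMG hMd
  obtain ⟨M1, M2, h1, h2, hs, hP, hQ⟩ := split hM
    (fun a => ∃ i, a = some i ∧ i ∈ S ∧ i ∉ T) (fun a => ∃ i, a = some i ∧ i ∈ T ∧ i ∉ S) (by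
      rintro _ _ ⟨i, rfl, hi, hi'⟩ ⟨j, rfl, hj, hj'⟩
      refine hMG i j (fun e => hj' (e ▸ hi)) fun hA => ?_
      rcases h i hi j hj hA with h | h
      · exact hi' h
      · exact hj' h)
  have hz : ∀ i, i ∉ S → i ∉ T → M1 (some i) (some i) = 0 ∧ M2 (some i) (some i) = 0 := by
    intro i hi hi'
    have e := hs (some i) (some i)
    rw [hMd i (fun h => h.elim hi hi')] at e
    have a := h1.diag_nonneg (some i)
    have b := h2.diag_nonneg (some i)
    exact ⟨by linarith, by linarith⟩
  have hz1 : ∀ i b, i ∉ S → M1 (some i) b = 0 := by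
    intro i b hi
    by_cases hT : i ∈ T
    · exact hQ _ b ⟨i, rfl, hT, hi⟩
    · exact row_zero h1 (hz i hi hT).1 b
  have hz2 : ∀ i b, i ∉ T → M2 (some i) b = 0 := by
    intro i b hi
    by_cases hS : i ∈ S
    · exact hP _ b ⟨i, rfl, hS, hi⟩
    · exact row_zero h2 (hz i hS hi).2 b
  have hST : ∀ i, i ≠ v → i ∉ S ∨ i ∉ T := by
    intro i hi
    by_contra hc
    push Not at hc
    exact hi (hv ⟨hc.1, hc.2⟩)
  have hrow : ∀ i b, i ≠ v → (M1 (some i) b = 0 ∧ M2 (some i) b = M (some i) b) ∨
      (M2 (some i) b = 0 ∧ M1 (some i) b = M (some i) b) := by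
    intro i b hi
    have e := hs (some i) b
    rcases hST i hi with h | h
    · left
      rw [hz1 i b h, zero_add] at e
      exact ⟨hz1 i b h, e.symm⟩
    · right
      rw [hz2 i b h, add_zero] at e
      exact ⟨hz2 i b h, e.symm⟩
  have hent : ∀ i j, i ≠ j → (M1 (some i) (some j) = 0 ∧ M2 (some i) (some j) = M (some i) (some j))
      ∨ (M2 (some i) (some j) = 0 ∧ M1 (some i) (some j) = M (some i) (some j)) := by
    intro i j hij
    by_cases hi : i = v
    · have hj : j ≠ v := fun e => hij (hi.trans e.symm)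
      rw [h1.1 (some i) (some j), h2.1 (some i) (some j), hM.1 (some i) (some j)]
      exact hrow j (some i) hj
    · exact hrow i (some j) hi
  have hn1 : ∀ i j, 0 ≤ M1 (some i) (some j) := by
    intro i j
    by_cases hij : i = j
    · rw [hij]; exact h1.diag_nonneg _
    · rcases hent i j hij with h | h
      · rw [h.1]
      · rw [h.2]; exact hM0 i j
  have hn2 : ∀ i j, 0 ≤ M2 (some i) (some j) := by
    intro i j
    by_cases hij : i = j
    · rw [hij]; exact h2.diag_nonneg _
    · rcases hent i j hij with h | h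
      · rw [h.2]; exact hM0 i j
      · rw [h.1]
  have hg1 : ∀ i j, i ≠ j → ¬ G.Adj i j → M1 (some i) (some j) = 0 := by
    intro i j hij hA
    rcases hent i j hij with h | h
    · exact h.1
    · rw [h.2]; exact hMG i j hij hA
  have hg2 : ∀ i j, i ≠ j → ¬ G.Adj i j → M2 (some i) (some j) = 0 := by
    intro i j hij hA
    rcases hent i j hij with h | h
    · rw [h.2]; exact hMG i j hij hA
    · exact h.1
  have k1 := hS M1 h1 hn1 hg1 fun i hi => hz1 i _ hi
  have k2 := hT M2 h2 hn2 hg2 fun i hi => hz2 i _ hi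
  set E : Option V → Option V → ℝ := fun a b => sp β (M a b) - sp β (M1 a b) - sp β (M2 a b) with hE
  have k3 : Psd E := by
    refine psd_of_supported (fun a b => ?_) {none, some v} (fun a b ha => ?_) ?_
    · show sp β (M a b) - sp β (M1 a b) - sp β (M2 a b) =
        sp β (M b a) - sp β (M1 b a) - sp β (M2 b a)
      rw [hM.1 a b, h1.1 a b, h2.1 a b]
    · rcases a with _ | i
      · exact absurd (by simp) ha
      · have hi : i ≠ v := fun e => ha (by simp [e])
        show sp β (M (some i) b) - sp β (M1 (some i) b) - sp β (M2 (some i) b) = 0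
        rcases hrow i b hi with h | h
        · rw [h.1, h.2, sp_zero]; ring
        · rw [h.1, h.2, sp_zero]; ring
    · have hc : Fintype.card ({none, some v} : Finset (Option V)) ≤ 2 := by
        rw [Fintype.card_coe]
        exact Finset.card_le_two
      have k := superadd hc
        (P := fun i j => M1 i j) (N := fun i j => M2 i j) (h1.submatrix Subtype.val)
        (h2.submatrix Subtype.val) hβ
      have e : (fun i j : ({none, some v} : Finset (Option V)) => E i j) =
          fun i j : ({none, some v} : Finset (Option V)) =>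
            sp β (M1 i j + M2 i j) - sp β (M1 i j) - sp β (M2 i j) := by
        funext i j
        show sp β (M i j) - sp β (M1 i j) - sp β (M2 i j) = _
        rw [hs i j]
      rw [e]
      exact k
  have e : (fun a b => sp β (M a b)) = fun a b => E a b + (sp β (M1 a b) + sp β (M2 a b)) := by
    funext a b
    simp only [hE]
    ring
  rw [e]
  exact k3.add (k1.add k2)

theorem pw_superadd {β a b : ℝ} (hβ : 1 ≤ β) (ha : 0 ≤ a) (hb : 0 ≤ b) :
    pw β a + pw β b ≤ pw β (a + b) := by
  rw [pw_add_one ha, pw_add_one hb, pw_add_one (add_nonneg ha hb), mul_add]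
  have h1 : pw (β - 1) a ≤ pw (β - 1) (a + b) := pw_mono (by linarith) ha (by linarith)
  have h2 : pw (β - 1) b ≤ pw (β - 1) (a + b) := pw_mono (by linarith) hb (by linarith)
  exact add_le_add (mul_le_mul_of_nonneg_right h1 ha) (mul_le_mul_of_nonneg_right h2 hb)

theorem PW.glue {V : Type*} [Fintype V] {G : SimpleGraph V} {S T : Set V} (v : V)
    (hv : S ∩ T ⊆ {v}) (h : ∀ a ∈ S, ∀ b ∈ T, G.Adj a b → a ∈ T ∨ b ∈ S) {β : ℝ} (hβ : 1 ≤ β)
    (hS : PW G S β) (hT : PW G T β) : PW G (S ∪ T) β := by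
  classical
  rintro A ⟨hA, hA0, hAG⟩ hAd
  obtain ⟨A1, A2, h1, h2, hs, hz1, hz2⟩ := split_vertex hA (S := S) (T := T)
    (fun a b ha hb ha' hb' => by
      refine hAG a b (fun e => hb' (e ▸ ha)) fun hadj => ?_
      rcases h a ha b hb hadj with h | h
      · exact ha' h
      · exact hb' h) (fun i hi hj => hAd i fun h => h.elim hi hj)
  have hST : ∀ i, i ≠ v → i ∉ S ∨ i ∉ T := by
    intro i hi
    by_contra hc
    push Not at hc
    exact hi (hv ⟨hc.1, hc.2⟩)
  have hrow : ∀ i b, i ≠ v → (A1 i b = 0 ∧ A2 i b = A i b) ∨ (A2 i b = 0 ∧ A1 i b = A i b) := by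
    intro i b hi
    have e := hs i b
    rcases hST i hi with h | h
    · left
      rw [hz1 i b h, zero_add] at e
      exact ⟨hz1 i b h, e.symm⟩
    · right
      rw [hz2 i b h, add_zero] at e
      exact ⟨hz2 i b h, e.symm⟩
  have hent : ∀ i j, i ≠ j → (A1 i j = 0 ∧ A2 i j = A i j) ∨ (A2 i j = 0 ∧ A1 i j = A i j) := by
    intro i j hij
    by_cases hi : i = v
    · have hj : j ≠ v := fun e => hij (hi.trans e.symm)
      rw [h1.1 i j, h2.1 i j, hA.1 i j]
      exact hrow j i hj
    · exact hrow i j hi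
  have hn1 : ∀ i j, 0 ≤ A1 i j := by
    intro i j
    by_cases hij : i = j
    · rw [hij]; exact h1.diag_nonneg _
    · rcases hent i j hij with h | h
      · rw [h.1]
      · rw [h.2]; exact hA0 i j
  have hn2 : ∀ i j, 0 ≤ A2 i j := by
    intro i j
    by_cases hij : i = j
    · rw [hij]; exact h2.diag_nonneg _
    · rcases hent i j hij with h | h
      · rw [h.2]; exact hA0 i j
      · rw [h.1]
  have hg1 : ∀ i j, i ≠ j → ¬ G.Adj i j → A1 i j = 0 := by
    intro i j hij hadj
    rcases hent i j hij with h | h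
    · exact h.1
    · rw [h.2]; exact hAG i j hij hadj
  have hg2 : ∀ i j, i ≠ j → ¬ G.Adj i j → A2 i j = 0 := by
    intro i j hij hadj
    rcases hent i j hij with h | h
    · rw [h.2]; exact hAG i j hij hadj
    · exact h.1
  have k1 := hS A1 ⟨h1, hn1, hg1⟩ fun i hi => hz1 i _ hi
  have k2 := hT A2 ⟨h2, hn2, hg2⟩ fun i hi => hz2 i _ hi
  set E : V → V → ℝ := fun a b => pw β (A a b) - pw β (A1 a b) - pw β (A2 a b) with hE
  have hz : ∀ a b, a ≠ v → E a b = 0 := by
    intro i b hi
    show pw β (A i b) - pw β (A1 i b) - pw β (A2 i b) = 0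
    rcases hrow i b hi with h | h
    · rw [h.1, h.2, pw_zero]; ring
    · rw [h.1, h.2, pw_zero]; ring
  have hsymm : ∀ a b, E a b = E b a := by
    intro a b
    show pw β (A a b) - pw β (A1 a b) - pw β (A2 a b) =
        pw β (A b a) - pw β (A1 b a) - pw β (A2 b a)
    rw [hA.1 a b, h1.1 a b, h2.1 a b]
  have k3 : Psd E := by
    refine ⟨hsymm, fun x => ?_⟩
    have e : qf E x = x v * E v v * x v := by
      rw [qf, Finset.sum_eq_single v, Finset.sum_eq_single v]
      · intro j _ hj
        rw [hsymm v j, hz j v hj]; ring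
      · intro hn; exact absurd (Finset.mem_univ _) hn
      · intro i _ hi
        refine Finset.sum_eq_zero fun j _ => ?_
        rw [hz i j hi]; ring
      · intro hn; exact absurd (Finset.mem_univ _) hn
    rw [e]
    have h3 : 0 ≤ E v v := by
      show 0 ≤ pw β (A v v) - pw β (A1 v v) - pw β (A2 v v)
      have := pw_superadd hβ (hn1 v v) (hn2 v v)
      rw [hs v v]
      linarith
    have : x v * E v v * x v = E v v * (x v) ^ 2 := by ring
    rw [this]
    exact mul_nonneg h3 (sq_nonneg _)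
  have e : hpow A β = fun a b => E a b + (hpow A1 β a b + hpow A2 β a b) := by
    funext a b
    show pw β (A a b) = (pw β (A a b) - pw β (A1 a b) - pw β (A2 a b)) +
      (pw β (A1 a b) + pw β (A2 a b))
    ring
  rw [e]
  exact k3.add (k1.add k2)

end Pool.Agent.Helper11.BL
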