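import Pool.Agent.Helper11.BL.Glue

/-!
# Pieces with the signed cone property
-/

open Finset Pool.Agent.Helper71.CE Pool.Agent.Helper88.CE

namespace Pool.Agent.Helper11.BL

/-- positivity from a set of indices which carries the matrix -/
theorem psd_of_range {ι κ : Type*} [Fintype ι] [Fintype κ] {E : ι → ι → ℝ}
    (hs : ∀ i j, E i j = E j i) (g : κ → ι) (h0 : ∀ i j, (∀ a, g a ≠ i) → E i j = 0)
    (h : Psd (fun a b => E (g a) (g b))) : Psd E := by
  classical
  refine psd_of_supported hs (Finset.univ.image g) (fun i j hi => h0 i j fun a ha => hi ?_) ?_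
  · rw [Finset.mem_image]
    exact ⟨a, Finset.mem_univ _, ha⟩
  · have hr : ∀ i : (Finset.univ.image g : Finset ι), ∃ a, g a = i := by
      intro i
      obtain ⟨a, -, ha⟩ := Finset.mem_image.1 i.2
      exact ⟨a, ha⟩
    choose r hr using hr
    have h2 := h.submatrix r
    have e : (fun i j : (Finset.univ.image g : Finset ι) => E i j) =
        fun i j => E (g (r i)) (g (r j)) := by
      funext i j
      rw [hr, hr]
    rw [e]
    exact h2

theorem sp_symm {ι : Type*} [Fintype ι] {M : ι → ι → ℝ} (hM : Psd M) (β : ℝ) (a b : ι) :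
    sp β (M a b) = sp β (M b a) := by rw [hM.1 a b]

/-- [E] -/
theorem sc_small {V : Type*} [Fintype V] {G : SimpleGraph V} {S : Set V} {w : ℕ}
    (h : S.ncard ≤ w + 1) {β : ℝ} (hβ : (w : ℝ) < β) : SC G S β := by
  classical
  intro M hM hM0 hMG hMd
  have hw : (0 : ℝ) ≤ w := Nat.cast_nonneg w
  refine psd_of_range (κ := Option S) (sp_symm hM β) (Option.map Subtype.val) (fun a b ha => ?_) ?_
  · rcases a with _ | i
    · exact absurd rfl (ha none)
    · have hi : i ∉ S := fun hi => ha (some ⟨i, hi⟩) rfl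
      show sp β (M (some i) b) = 0
      rw [row_zero hM (hMd i hi) b, sp_zero]
  · refine ((sfh (Option S)) (fun a b => M (Option.map Subtype.val a) (Option.map Subtype.val b))
      (hM.submatrix _) β (by linarith) ?_).2
    rw [Fintype.card_option]
    have h2 : Fintype.card S = S.ncard := by
      rw [← Nat.card_eq_fintype_card, Nat.card_coe_set_eq]
    rw [h2]
    have h3 : (S.ncard : ℝ) ≤ w + 1 := by exact_mod_cast h
    push_cast
    linarith

/-- [E'] -/
theorem pw_small {V : Type*} [Fintype V] {G : SimpleGraph V} {S : Set V} {w : ℕ}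
    (h : S.ncard ≤ w + 1) {β : ℝ} (hβ : (w : ℝ) - 1 ≤ β) (hβ0 : 0 ≤ β) : PW G S β := by
  classical
  rintro A ⟨hA, hA0, hAG⟩ hAd
  refine psd_of_range (κ := S) (hpow_symm hA β) Subtype.val (fun a b ha => ?_) ?_
  · have hi : a ∉ S := fun hi => ha ⟨a, hi⟩ rfl
    show pw β (A a b) = 0
    rw [row_zero hA (hAd a hi) b, pw_zero]
  · refine fitzGerald_horn S (fun a b => A a b) (hA.submatrix _) (fun i j => hA0 _ _) β hβ0 ?_
    have h2 : Fintype.card S = S.ncard := by
      rw [← Nat.card_eq_fintype_card, Nat.card_coe_set_eq]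
    rw [h2]
    have h3 : (S.ncard : ℝ) ≤ w + 1 := by exact_mod_cast h
    linarith

/-- the signed cone property passes to subgraphs -/
theorem SC.of_embed {V W : Type*} [Fintype V] [Fintype W] {G : SimpleGraph V} {S : Set V}
    {H : SimpleGraph W} (f : S → W) (hf : Function.Injective f)
    (hfa : ∀ a b : S, G.Adj a b → H.Adj (f a) (f b)) {β : ℝ} (h : SC H Set.univ β) :
    SC G S β := by
  classical
  intro M hM hM0 hMG hMd
  have hg : Function.Injective (Option.map f) := Option.map_injective hf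
  set A : Option S → Option S → ℝ := fun a b =>
    M (Option.map Subtype.val a) (Option.map Subtype.val b) with hA
  have hAp : Psd A := hM.submatrix _
  have hmem : ∀ {a : Option S} {i : W}, Option.map f a = some i → ∃ a' : S, a = some a' ∧ f a' = i := by
    intro a i ha
    obtain ⟨a', h1, h2⟩ := Option.map_eq_some_iff.1 ha
    exact ⟨a', h1, h2⟩
  have key := h (push (Option.map f) A) ⟨push_symm _ hAp.1, fun x => ?_⟩ (fun i j => ?_)
    (fun i j hij hn => ?_) (fun i hi => absurd (Set.mem_univ i) hi)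
  · refine psd_of_range (κ := Option S) (sp_symm hM β) (Option.map Subtype.val)
      (fun a b ha => ?_) ?_
    · rcases a with _ | i
      · exact absurd rfl (ha none)
      · have hi : i ∉ S := fun hi => ha (some ⟨i, hi⟩) rfl
        show sp β (M (some i) b) = 0
        rw [row_zero hM (hMd i hi) b, sp_zero]
    · have h2 := key.submatrix (Option.map f)
      have e : (fun a b => sp β (push (Option.map f) A (Option.map f a) (Option.map f b))) =
          fun a b => sp β (A a b) := by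
        funext a b
        rw [push_apply hg]
      rw [e] at h2
      exact h2
  · rw [qf_push]
    exact hAp.2 _
  · unfold push
    refine Finset.sum_nonneg fun a _ => Finset.sum_nonneg fun b _ => ?_
    split_ifs with hh
    · obtain ⟨a', rfl, -⟩ := hmem hh.1
      obtain ⟨b', rfl, -⟩ := hmem hh.2
      exact hM0 _ _
    · exact le_refl _
  · unfold push
    refine Finset.sum_eq_zero fun a _ => Finset.sum_eq_zero fun b _ => ?_
    split_ifs with hh
    · obtain ⟨a', rfl, ha⟩ := hmem hh.1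
      obtain ⟨b', rfl, hb⟩ := hmem hh.2
      refine hMG _ _ (fun e => hij ?_) fun e => hn ?_
      · rw [← ha, ← hb, Subtype.ext e]
      · rw [← ha, ← hb]
        exact hfa _ _ e
    · rfl

section

variable {W : Type*} [Fintype W] {H : SimpleGraph W}

/-- restriction of the positivity of `A - kkᵀ` to a clique -/
theorem psdOn_sub {w : ℕ} (hw : ∀ Q : Finset W, H.IsClique Q → Q.card ≤ w) {γ : ℝ} (hγ0 : 0 < γ)
    (hγ : (w : ℝ) - 1 < γ) {A : W → W → ℝ} {k : W → ℝ} (hX : Psd (fun i j => A i j - k i * k j))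
    {Q : Set W} (hQ : H.IsClique Q) :
    PsdOn (fun i j => ph γ (A i j) - ph γ (k i) * ph γ (k j)) Q ∧
      PsdOn (fun i j => sp γ (A i j) - sp γ (k i) * sp γ (k j)) Q := by
  classical
  have hF : ∀ i, i ∈ Q.toFinset ↔ i ∈ Q := fun i => Set.mem_toFinset
  have hc : (Fintype.card Q.toFinset : ℝ) - 1 < γ := by
    rw [Fintype.card_coe]
    have h1 := hw Q.toFinset (by rw [Set.coe_toFinset]; exact hQ)
    have h2 : (Q.toFinset.card : ℝ) ≤ w := by exact_mod_cast h1
    linarith
  have h := sub_of_card hγ0 hc (fun i j : Q.toFinset => A i j) (fun i => k i)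
    (hX.submatrix Subtype.val)
  exact ⟨psdOn_of_restrict Q.toFinset hF h.1, psdOn_of_restrict Q.toFinset hF h.2⟩

theorem psdOn_pow {w : ℕ} (hw : ∀ Q : Finset W, H.IsClique Q → Q.card ≤ w) {γ : ℝ} (hγ0 : 0 ≤ γ)
    (hγ : (w : ℝ) - 2 ≤ γ) {A : W → W → ℝ} (hA : Psd A) (hA0 : ∀ i j, 0 ≤ A i j)
    {Q : Set W} (hQ : H.IsClique Q) : PsdOn (fun i j => pw γ (A i j)) Q := by
  classical
  have hF : ∀ i, i ∈ Q.toFinset ↔ i ∈ Q := fun i => Set.mem_toFinset
  refine psdOn_of_restrict Q.toFinset hF ?_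
  refine fitzGerald_horn Q.toFinset (fun i j => A i j) (hA.submatrix Subtype.val)
    (fun i j => hA0 _ _) γ hγ0 ?_
  rw [Fintype.card_coe]
  have h1 := hw Q.toFinset (by rw [Set.coe_toFinset]; exact hQ)
  have h2 : (Q.toFinset.card : ℝ) ≤ w := by exact_mod_cast h1
  linarith

/-- powers from `Dec` -/
theorem pow_of_dec (hD : Dec H) {w : ℕ} (hw : ∀ Q : Finset W, H.IsClique Q → Q.card ≤ w) {β : ℝ}
    (hβ : (w : ℝ) - 1 ≤ β) (hβ1 : 1 ≤ β) {A : W → W → ℝ} (hA : InPG H A) : Psd (hpow A β) := by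
  have h := hD A hA (fun i j => pw (β - 1) (A i j)) (fun i j => by rw [hA.1.1 i j])
    (fun Q hQ => psdOn_pow hw (by linarith) (by linarith) hA.1 hA.2.1 hQ)
  have e : hpow A β = fun i j => pw (β - 1) (A i j) * A i j := by
    funext i j
    exact pw_add_one (hA.2.1 i j)
  rw [e]
  exact h

/-- powers from `DecTwo` -/
theorem pow_of_two (hD : DecTwo H) {w : ℕ} (hw : ∀ Q : Finset W, H.IsClique Q → Q.card ≤ w) {β : ℝ}
    (hβ : (w : ℝ) ≤ β) (hβ1 : 2 ≤ β) {A : W → W → ℝ} (hA : InPG H A) : Psd (hpow A β) := by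
  have h := hD A hA (fun i j => pw (β - 2) (A i j)) (fun i j => by rw [hA.1.1 i j])
    (fun Q hQ => psdOn_pow hw (by linarith) (by linarith) hA.1 hA.2.1 hQ)
  have e : hpow A β = fun i j => pw (β - 2) (A i j) * (A i j * A i j) := by
    funext i j
    show pw β (A i j) = _
    rw [pw_add_one (hA.2.1 i j), pw_add_one (β := β - 1) (hA.2.1 i j),
      show β - 1 - 1 = β - 2 by ring]
    ring
  rw [e]
  exact h

theorem sp_eq_mul_ph (β a : ℝ) : sp β a = a * ph (β - 1) a := rfl

theorem ph_eq_mul_sp (β a : ℝ) : ph β a = a * sp (β - 1) a := by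
  rw [ph, sp, pw_add_one (abs_nonneg a), pw_add_one (β := β - 1) (abs_nonneg a)]
  have : |a| * |a| = a * a := abs_mul_abs_self a
  calc pw (β - 1 - 1) |a| * |a| * |a| = pw (β - 1 - 1) |a| * (|a| * |a|) := by ring
    _ = pw (β - 1 - 1) |a| * (a * a) := by rw [this]
    _ = a * (a * pw (β - 1 - 1) |a|) := by ring

theorem sp_pos {β a : ℝ} (ha : 0 < a) : 0 < sp β a := by
  rw [sp_of_nonneg ha.le]
  exact pw_pos ha

/-- the block and the Schur complement -/
theorem sc_of_schur {β : ℝ} (h1 : ∀ A, InPG H A → Psd (hpow A β))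
    (h2 : ∀ (A : W → W → ℝ) (k : W → ℝ), InPG H A → Psd (fun i j => A i j - k i * k j) →
      Psd (fun i j => sp β (A i j) - sp β (k i) * sp β (k j))) : SC H Set.univ β := by
  intro M hM hM0 hMG _
  have hA : InPG H (fun i j => M (some i) (some j)) := ⟨hM.submatrix some, hM0, hMG⟩
  refine psd_f_option (sp_zero β) (sp_mul β) (fun a ha => sp_pos ha) hM (fun _ => ?_)
    (fun k hk => h2 _ k hA hk)
  have h := h1 _ hA
  have e : (fun i j => sp β (M (some i) (some j))) =
      hpow (fun i j => M (some i) (some j)) β := by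
    funext i j
    exact sp_of_nonneg (hM0 i j)
  rw [e]
  exact h

theorem sc_dec (hD : Dec H) {w : ℕ} (hw : ∀ Q : Finset W, H.IsClique Q → Q.card ≤ w) {β : ℝ}
    (hβ : (w : ℝ) < β) (hβ1 : 1 < β) : SC H Set.univ β := by
  refine sc_of_schur (fun A hA => pow_of_dec hD hw (by linarith) hβ1.le hA) ?_
  intro A k hA hX
  have h1 : Psd (fun i j => (A i j - k i * k j) * (ph (β - 1) (k i) * ph (β - 1) (k j))) :=
    hX.hadamard (psd_rankOne fun i => ph (β - 1) (k i))
  have h2 := hD A hA (fun i j => ph (β - 1) (A i j) - ph (β - 1) (k i) * ph (β - 1) (k j))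
    (fun i j => by rw [hA.1.1 i j]; ring)
    (fun Q hQ => (psdOn_sub hw (by linarith) (by linarith) hX hQ).1)
  have e : (fun i j => sp β (A i j) - sp β (k i) * sp β (k j)) =
      fun i j => (A i j - k i * k j) * (ph (β - 1) (k i) * ph (β - 1) (k j)) +
        (ph (β - 1) (A i j) - ph (β - 1) (k i) * ph (β - 1) (k j)) * A i j := by
    funext i j
    rw [sp_eq_mul_ph, sp_eq_mul_ph, sp_eq_mul_ph]
    ring
  rw [e]
  exact h1.add h2

theorem sc_two (hD : DecTwo H) {w : ℕ} (hw : ∀ Q : Finset W, H.IsClique Q → Q.card ≤ w) {β : ℝ}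
    (hβ : (w : ℝ) + 1 < β) (hβ2 : 2 < β) : SC H Set.univ β := by
  refine sc_of_schur (fun A hA => pow_of_two hD hw (by linarith) hβ2.le hA) ?_
  intro A k hA hX
  have h1 : Psd (fun i j => (A i j - k i * k j) * (ph (β - 1) (k i) * ph (β - 1) (k j))) :=
    hX.hadamard (psd_rankOne fun i => ph (β - 1) (k i))
  have h3 : Psd (fun i j => A i j * ((A i j - k i * k j) *
      (sp (β - 2) (k i) * sp (β - 2) (k j)))) :=
    hA.1.hadamard (hX.hadamard (psd_rankOne fun i => sp (β - 2) (k i)))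
  have h2 := hD A hA (fun i j => sp (β - 2) (A i j) - sp (β - 2) (k i) * sp (β - 2) (k j))
    (fun i j => by rw [hA.1.1 i j]; ring)
    (fun Q hQ => (psdOn_sub hw (by linarith) (by linarith) hX hQ).2)
  have e : (fun i j => sp β (A i j) - sp β (k i) * sp β (k j)) =
      fun i j => ((A i j - k i * k j) * (ph (β - 1) (k i) * ph (β - 1) (k j)) +
        A i j * ((A i j - k i * k j) * (sp (β - 2) (k i) * sp (β - 2) (k j)))) +
        (sp (β - 2) (A i j) - sp (β - 2) (k i) * sp (β - 2) (k j)) * (A i j * A i j) := by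
    funext i j
    rw [sp_eq_mul_ph, sp_eq_mul_ph, sp_eq_mul_ph, ph_eq_mul_sp (β - 1) (A i j),
      ph_eq_mul_sp (β - 1) (k i), ph_eq_mul_sp (β - 1) (k j), show β - 1 - 1 = β - 2 by ring]
    ring
  rw [e]
  exact (h1.add h3).add h2

end

/-- [F1] -/
theorem sc_of_dec {V : Type*} [Fintype V] {G : SimpleGraph V} {S : Set V} {W : Type*} [Fintype W]
    {H : SimpleGraph W} (f : S → W) (hf : Function.Injective f)
    (hfa : ∀ a b : S, G.Adj a b → H.Adj (f a) (f b)) (hD : Dec H) {w : ℕ}
    (hw : ∀ Q : Finset W, H.IsClique Q → Q.card ≤ w) {β : ℝ} (hβ : (w : ℝ) < β) (hβ1 : 1 < β) :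
    SC G S β := SC.of_embed f hf hfa (sc_dec hD hw hβ hβ1)

/-- [F2] -/
theorem sc_of_two {V : Type*} [Fintype V] {G : SimpleGraph V} {S : Set V} {W : Type*} [Fintype W]
    {H : SimpleGraph W} (f : S → W) (hf : Function.Injective f)
    (hfa : ∀ a b : S, G.Adj a b → H.Adj (f a) (f b)) (hD : DecTwo H) {w : ℕ}
    (hw : ∀ Q : Finset W, H.IsClique Q → Q.card ≤ w) {β : ℝ} (hβ : (w : ℝ) + 1 < β)
    (hβ2 : 2 < β) : SC G S β := SC.of_embed f hf hfa (sc_two hD hw hβ hβ2)

/-- [F3] powers on subgraphs -/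
theorem pw_of_embed {V : Type*} [Fintype V] {G : SimpleGraph V} {S : Set V} {W : Type*} [Fintype W]
    {H : SimpleGraph W} (f : S → W) (hf : Function.Injective f)
    (hfa : ∀ a b : S, G.Adj a b → H.Adj (f a) (f b)) {β : ℝ}
    (h : ∀ A, InPG H A → Psd (hpow A β)) : PW G S β := by
  classical
  rintro A ⟨hA, hA0, hAG⟩ hAd
  refine psd_of_range (κ := S) (hpow_symm hA β) Subtype.val (fun a b ha => ?_) ?_
  · have hi : a ∉ S := fun hi => ha ⟨a, hi⟩ rfl
    show pw β (A a b) = 0
    rw [row_zero hA (hAd a hi) b, pw_zero]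
  · have hA' : InPG (G.induce S) (fun a b : S => A a b) :=
      ⟨hA.submatrix _, fun i j => hA0 _ _, fun i j hij hn =>
        hAG _ _ (fun e => hij (Subtype.ext e)) hn⟩
    exact pow_of_embed (G := G.induce S) hf hfa h hA'

end Pool.Agent.Helper11.BL
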