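import Pool.Agent.Helper11.BL.Defs

/-!
# The signed FitzGerald–Horn theorem and superadditivity on two points
-/

open Finset Pool.Agent.Helper71.CE

namespace Pool.Agent.Helper11.BL

theorem ph_zero (β : ℝ) : ph β 0 = 0 := by rw [ph, abs_zero, pw_zero]

theorem sp_zero (β : ℝ) : sp β 0 = 0 := by rw [sp, zero_mul]

theorem ph_mul (β a b : ℝ) : ph β (a * b) = ph β a * ph β b := by
  rw [ph, ph, ph, abs_mul, pw_mul (abs_nonneg a) (abs_nonneg b)]

theorem sp_mul (β a b : ℝ) : sp β (a * b) = sp β a * sp β b := by
  rw [sp, sp, sp, abs_mul, pw_mul (abs_nonneg a) (abs_nonneg b)]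
  ring

theorem ph_of_nonneg {β a : ℝ} (ha : 0 ≤ a) : ph β a = pw β a := by rw [ph, abs_of_nonneg ha]

theorem sp_of_nonneg {β a : ℝ} (ha : 0 ≤ a) : sp β a = pw β a := by
  rw [sp, abs_of_nonneg ha, mul_comm]
  exact (pw_add_one ha).symm

theorem ph_eq {β : ℝ} (hβ : 0 < β) (x : ℝ) : ph β x = |x| ^ β := by
  rw [ph, pw]
  split_ifs with h
  · rw [h, Real.zero_rpow hβ.ne']
  · rfl

theorem sp_eq {β : ℝ} (hβ : 1 < β) (x : ℝ) : sp β x = x * |x| ^ (β - 1) := by
  rw [sp]
  congr 1
  exact ph_eq (by linarith) x

theorem hasDerivAt_ph {β : ℝ} (hβ : 1 < β) (x : ℝ) :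
    HasDerivAt (ph β) (β * sp (β - 1) x) x := by
  have e : ph β = fun x => |x| ^ β := funext fun x => ph_eq (by linarith) x
  rw [e]
  refine (hasDerivAt_abs_rpow x hβ).congr_deriv ?_
  rw [sp]
  by_cases hx : x = 0
  · rw [hx]; ring
  · rw [pw_of_pos (abs_pos.2 hx), show β - 1 - 1 = β - 2 by ring]
    ring

theorem hasDerivAt_sp {β : ℝ} (hβ : 1 < β) (x : ℝ) :
    HasDerivAt (sp β) (β * ph (β - 1) x) x := by
  rcases lt_trichotomy x 0 with hx | hx | hx
  · have h1 : HasDerivAt (fun y : ℝ => -y) (-1) x := (hasDerivAt_id x).neg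
    have h2 : HasDerivAt (fun y : ℝ => (-y) ^ β) (-1 * β * (-x) ^ (β - 1)) x :=
      h1.rpow_const (Or.inl (by linarith : -x ≠ 0))
    have h3 : HasDerivAt (fun y : ℝ => -(-y) ^ β) (-(-1 * β * (-x) ^ (β - 1))) x := h2.neg
    have heq : sp β =ᶠ[nhds x] fun y : ℝ => -(-y) ^ β := by
      filter_upwards [Iio_mem_nhds hx] with y hy
      have hy0 : y < 0 := hy
      have hy1 : y ≠ 0 := hy0.ne
      rw [sp, abs_of_neg hy0, pw_of_pos (by linarith), Real.rpow_sub_one (by linarith)]
      field_simp
    refine (h3.congr_of_eventuallyEq heq).congr_deriv ?_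
    rw [ph, abs_of_neg hx, pw_of_pos (by linarith)]
    ring
  · subst hx
    rw [ph_zero, mul_zero, hasDerivAt_iff_tendsto_slope_zero]
    have hc : Filter.Tendsto (fun t : ℝ => |t| ^ (β - 1)) (nhdsWithin 0 {0}ᶜ) (nhds 0) := by
      have h1 : Continuous fun t : ℝ => |t| ^ (β - 1) :=
        continuous_abs.rpow_const fun t => Or.inr (by linarith)
      have h2 := h1.tendsto 0
      rw [abs_zero, Real.zero_rpow (by linarith)] at h2
      exact h2.mono_left nhdsWithin_le_nhds
    refine hc.congr' ?_
    filter_upwards [self_mem_nhdsWithin] with t ht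
    have ht0 : t ≠ 0 := ht
    rw [zero_add, sp_zero, sub_zero, sp_eq hβ, smul_eq_mul]
    field_simp
  · have h2 : HasDerivAt (fun y : ℝ => y ^ β) (β * x ^ (β - 1)) x :=
      Real.hasDerivAt_rpow_const (Or.inl hx.ne')
    have heq : sp β =ᶠ[nhds x] fun y : ℝ => y ^ β := by
      filter_upwards [Ioi_mem_nhds hx] with y hy
      have hy0 : 0 < y := hy
      rw [sp_of_nonneg hy0.le, pw_of_pos hy0]
    refine (h2.congr_of_eventuallyEq heq).congr_deriv ?_
    rw [ph_of_nonneg hx.le, pw_of_pos hx]

section

variable {ι : Type*} [Fintype ι]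

theorem mono_path (Θ θ : ι → ι → ℝ → ℝ) (x : ι → ℝ)
    (hd : ∀ i j l, HasDerivAt (Θ i j) (θ i j l) l)
    (h : ∀ l, 0 < l → l < 1 → 0 ≤ qf (fun i j => θ i j l) x) :
    qf (fun i j => Θ i j 0) x ≤ qf (fun i j => Θ i j 1) x := by
  set φ : ℝ → ℝ := fun l => ∑ i, ∑ j, x i * Θ i j l * x j with hφ
  have hder : ∀ l, HasDerivAt φ (∑ i, ∑ j, x i * θ i j l * x j) l := by
    intro l
    refine HasDerivAt.fun_sum fun i _ => ?_
    refine HasDerivAt.fun_sum fun j _ => ?_
    exact ((hd i j l).const_mul (x i)).mul_const (x j)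
  have hmono : MonotoneOn φ (Set.Icc 0 1) := by
    refine monotoneOn_of_deriv_nonneg (convex_Icc 0 1) ?_ ?_ ?_
    · exact fun l _ => (hder l).continuousAt.continuousWithinAt
    · exact fun l _ => (hder l).differentiableAt.differentiableWithinAt
    · rw [interior_Icc]
      intro l hl
      rw [(hder l).deriv]
      exact h l hl.1 hl.2
  exact hmono (Set.left_mem_Icc.2 zero_le_one) (Set.right_mem_Icc.2 zero_le_one) zero_le_one

theorem psd_smul {A : ι → ι → ℝ} (hA : Psd A) {c : ℝ} (hc : 0 ≤ c) :
    Psd (fun i j => c * A i j) := by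
  refine ⟨fun i j => by show c * A i j = c * A j i; rw [hA.1 i j], fun x => ?_⟩
  have e : qf (fun i j => c * A i j) x = c * qf A x := by
    simp only [qf, Finset.mul_sum]
    refine Finset.sum_congr rfl fun i _ => Finset.sum_congr rfl fun j _ => by ring
  rw [e]
  exact mul_nonneg hc (hA.2 x)

theorem psd_path {f g : ℝ → ℝ} (hd : ∀ x, HasDerivAt f (g x) x) {M N : ι → ι → ℝ}
    (hM : ∀ i j, M i j = M j i) (hN : ∀ i j, N i j = N j i) (hMN : Psd (fun i j => M i j - N i j))
    (hg : ∀ l : ℝ, 0 < l → l < 1 → Psd (fun i j => g (N i j + l * (M i j - N i j)))) :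
    Psd (fun i j => f (M i j) - f (N i j)) := by
  refine ⟨fun i j => by
    show f (M i j) - f (N i j) = f (M j i) - f (N j i)
    rw [hM i j, hN i j], fun x => ?_⟩
  have key := mono_path (fun i j l => f (N i j + l * (M i j - N i j)))
    (fun i j l => g (N i j + l * (M i j - N i j)) * (M i j - N i j)) x ?_ ?_
  · have e : qf (fun i j => f (M i j) - f (N i j)) x =
        qf (fun i j => f (N i j + 1 * (M i j - N i j))) x -
        qf (fun i j => f (N i j + 0 * (M i j - N i j))) x := by
      simp only [qf, ← Finset.sum_sub_distrib]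
      refine Finset.sum_congr rfl fun i _ => Finset.sum_congr rfl fun j _ => ?_
      rw [show N i j + 1 * (M i j - N i j) = M i j by ring,
        show N i j + 0 * (M i j - N i j) = N i j by ring]
      ring
    rw [e]
    linarith
  · intro i j l
    have h1 : HasDerivAt (fun l : ℝ => N i j + l * (M i j - N i j)) (M i j - N i j) l := by
      have := ((hasDerivAt_id l).mul_const (M i j - N i j)).const_add (N i j)
      simpa using this
    exact (hd _).comp l h1
  · intro l h0 h1
    exact ((hg l h0 h1).hadamard hMN).2 x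

variable {V : Type*} [Fintype V]

/-- reduction to the Schur complement for a multiplicative function -/
theorem psd_f_option {f : ℝ → ℝ} (hf0 : f 0 = 0) (hfm : ∀ a b, f (a * b) = f a * f b)
    (hfp : ∀ a, 0 < a → 0 < f a) {A : Option V → Option V → ℝ} (hA : Psd A)
    (hblock : A none none = 0 → Psd (fun i j => f (A (some i) (some j))))
    (hschur : ∀ k : V → ℝ, Psd (fun i j => A (some i) (some j) - k i * k j) →
      Psd (fun i j => f (A (some i) (some j)) - f (k i) * f (k j))) :
    Psd (fun a b => f (A a b)) := by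
  have hs : ∀ a b, f (A a b) = f (A b a) := fun a b => by rw [hA.1 a b]
  rcases (hA.diag_nonneg none).eq_or_lt with h0 | h0
  · refine psd_of_none_zero hs ?_ ?_ (hblock h0.symm)
    · show f (A none none) = 0
      rw [← h0, hf0]
    · intro i
      show f (A (some i) none) = 0
      rw [hA.none_zero h0.symm i, hf0]
  · refine psd_of_schur hs (hfp _ h0) ?_
    have hr : 0 < √(A none none) := Real.sqrt_pos.2 h0
    have hsq : √(A none none) * √(A none none) = A none none := Real.mul_self_sqrt h0.le
    have hfr : f (√(A none none)) * f (√(A none none)) = f (A none none) := by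
      rw [← hfm, hsq]
    have hfr0 : 0 < f (√(A none none)) := hfp _ hr
    have key := hschur (fun i => A (some i) none / √(A none none)) ?_
    · have e : schur (fun a b => f (A a b)) = fun i j => f (A (some i) (some j)) -
          f (A (some i) none / √(A none none)) * f (A (some j) none / √(A none none)) := by
        funext i j
        simp only [schur]
        have e1 : ∀ i, f (A (some i) none) =
            f (A (some i) none / √(A none none)) * f (√(A none none)) := by
          intro i
          rw [← hfm, div_mul_cancel₀ _ hr.ne']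
        rw [e1 i, e1 j, ← hfr]
        field_simp
      rw [e]
      exact key
    · have e : schur A = fun i j => A (some i) (some j) -
          A (some i) none / √(A none none) * (A (some j) none / √(A none none)) := by
        funext i j
        simp only [schur]
        rw [div_mul_div_comm, hsq]
      have := psd_schur hA h0
      rw [e] at this
      exact this

/-- one point -/
theorem psd_sub_one {f : ℝ → ℝ} (hfm : ∀ a b, f (a * b) = f a * f b)
    (hmono : ∀ a b, 0 ≤ a → a ≤ b → f a ≤ f b) (hcard : Fintype.card V ≤ 1) {M : V → V → ℝ}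
    {k : V → ℝ} (hMk : Psd (fun i j => M i j - k i * k j)) :
    Psd (fun i j => f (M i j) - f (k i) * f (k j)) := by
  have : Subsingleton V := Fintype.card_le_one_iff_subsingleton.1 hcard
  refine ⟨fun i j => by rw [Subsingleton.elim i j], fun x => ?_⟩
  refine Finset.sum_nonneg fun i _ => Finset.sum_nonneg fun j _ => ?_
  have hij : i = j := Subsingleton.elim i j
  subst hij
  have h1 : 0 ≤ M i i - k i * k i := hMk.diag_nonneg i
  have h2 : f (k i) * f (k i) ≤ f (M i i) := by
    rw [← hfm]
    exact hmono _ _ (mul_self_nonneg _) (by linarith)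
  have : x i * (f (M i i) - f (k i) * f (k i)) * x i =
    x i ^ 2 * (f (M i i) - f (k i) * f (k i)) := by ring
  rw [this]
  exact mul_nonneg (sq_nonneg _) (by linarith)

theorem psd_line {M : V → V → ℝ} {k : V → ℝ} (hMk : Psd (fun i j => M i j - k i * k j)) {l : ℝ}
    (hl : 0 ≤ l) : Psd (fun i j => k i * k j + l * (M i j - k i * k j)) :=
  (psd_rankOne k).add (psd_smul hMk hl)

end

/-- **signed FitzGerald–Horn** -/
theorem sfh (V : Type*) [Fintype V] : SFH V := by
  classical
  refine Fintype.induction_empty_option (P := fun V _ => SFH V) ?_ ?_ ?_ V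
  · intro α β _ e h A hA b hb hc
    let : Fintype α := Fintype.ofEquiv β e.symm
    have h1 := h (fun i j => A (e i) (e j)) (by
      have := hA.submatrix (W := α) e
      exact this) b hb (by rwa [Fintype.card_congr e])
    have h2 := h1.1.submatrix (W := β) e.symm
    have h3 := h1.2.submatrix (W := β) e.symm
    have e2 : (fun i j : β => ph b (A (e (e.symm i)) (e (e.symm j)))) = fun i j => ph b (A i j) := by
      funext i j
      simp
    have e3 : (fun i j : β => sp b (A (e (e.symm i)) (e (e.symm j)))) = fun i j => sp b (A i j) := by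
      funext i j
      simp
    exact ⟨e2 ▸ h2, e3 ▸ h3⟩
  · intro A hA b hb hc
    exact ⟨⟨fun i => i.elim, fun x => by simp [qf]⟩, ⟨fun i => i.elim, fun x => by simp [qf]⟩⟩
  · intro V _ ih A hA β hβ hc
    rw [Fintype.card_option] at hc
    push_cast at hc
    have hp : ∀ a, 0 < a → 0 < ph β a := fun a ha => by
      rw [ph_of_nonneg ha.le]; exact pw_pos ha
    have hs : ∀ a, 0 < a → 0 < sp β a := fun a ha => by
      rw [sp_of_nonneg ha.le]; exact pw_pos ha
    have hblock := ih _ (hA.submatrix some) β hβ (by linarith)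
    have hsym : ∀ i j : V, A (some i) (some j) = A (some j) (some i) := fun i j => hA.1 _ _
    refine ⟨psd_f_option (ph_zero β) (ph_mul β) hp hA (fun _ => hblock.1) ?_,
      psd_f_option (sp_zero β) (sp_mul β) hs hA (fun _ => hblock.2) ?_⟩
    · intro k hMk
      rcases le_or_gt (Fintype.card V) 1 with hcard | hcard
      · refine psd_sub_one (ph_mul β) (fun a b ha hab => ?_) hcard hMk
        rw [ph_of_nonneg ha, ph_of_nonneg (ha.trans hab)]
        exact pw_mono hβ.le ha hab
      · have h2 : (2 : ℝ) ≤ Fintype.card V := by exact_mod_cast hcard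
        have key := psd_path (f := ph β) (g := fun x => β * sp (β - 1) x)
          (hasDerivAt_ph (by linarith)) (M := fun i j => A (some i) (some j))
          (N := fun i j => k i * k j) hsym (fun i j => mul_comm _ _) hMk (fun l h0 _ =>
            psd_smul (ih _ (psd_line hMk h0.le) (β - 1) (by linarith) (by linarith)).2 hβ.le)
        simpa only [ph_mul] using key
    · intro k hMk
      rcases le_or_gt (Fintype.card V) 1 with hcard | hcard
      · refine psd_sub_one (sp_mul β) (fun a b ha hab => ?_) hcard hMk
        rw [sp_of_nonneg ha, sp_of_nonneg (ha.trans hab)]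
        exact pw_mono hβ.le ha hab
      · have h2 : (2 : ℝ) ≤ Fintype.card V := by exact_mod_cast hcard
        have key := psd_path (f := sp β) (g := fun x => β * ph (β - 1) x)
          (hasDerivAt_sp (by linarith)) (M := fun i j => A (some i) (some j))
          (N := fun i j => k i * k j) hsym (fun i j => mul_comm _ _) hMk (fun l h0 _ =>
            psd_smul (ih _ (psd_line hMk h0.le) (β - 1) (by linarith) (by linarith)).1 hβ.le)
        simpa only [sp_mul] using key

/-- cone form: `M ≥ k kᵀ` on `n` points and `γ > n - 1` -/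
theorem sub_of_card {V : Type*} [Fintype V] {γ : ℝ} (hγ0 : 0 < γ)
    (hγ : (Fintype.card V : ℝ) - 1 < γ) (M : V → V → ℝ) (k : V → ℝ)
    (hMk : Psd (fun i j => M i j - k i * k j)) :
    Psd (fun i j => ph γ (M i j) - ph γ (k i) * ph γ (k j)) ∧
      Psd (fun i j => sp γ (M i j) - sp γ (k i) * sp γ (k j)) := by
  classical
  let A : Option V → Option V → ℝ := fun a b =>
    a.elim (b.elim 1 k) (fun i => b.elim (k i) (M i))
  have hsM : ∀ i j, M i j = M j i := fun i j => by
    have : M i j - k i * k j = M j i - k j * k i := hMk.1 i j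
    linarith [mul_comm (k i) (k j)]
  have hA : Psd A := by
    refine psd_of_schur ?_ (by show (0 : ℝ) < 1; norm_num) ?_
    · rintro (_ | i) (_ | j)
      · rfl
      · rfl
      · rfl
      · exact hsM i j
    · have e : schur A = fun i j => M i j - k i * k j := by
        funext i j
        simp [schur, A]
      rw [e]
      exact hMk
  have h := sfh (Option V) A hA γ hγ0 (by
    rw [Fintype.card_option]; push_cast; linarith)
  have p1 : ph γ 1 = 1 := by
    rw [ph_of_nonneg zero_le_one, pw_of_pos one_pos, Real.one_rpow]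
  have s1 : sp γ 1 = 1 := by
    rw [sp_of_nonneg zero_le_one, pw_of_pos one_pos, Real.one_rpow]
  have h2 := psd_schur h.1 (by show 0 < ph γ (1 : ℝ); rw [p1]; exact one_pos)
  have h3 := psd_schur h.2 (by show 0 < sp γ (1 : ℝ); rw [s1]; exact one_pos)
  have e1 : schur (fun a b => ph γ (A a b)) =
      fun i j => ph γ (M i j) - ph γ (k i) * ph γ (k j) := by
    funext i j
    simp [schur, A, p1]
  have e2 : schur (fun a b => sp γ (A a b)) =
      fun i j => sp γ (M i j) - sp γ (k i) * sp γ (k j) := by
    funext i j
    simp [schur, A, s1]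
  rw [e1] at h2
  rw [e2] at h3
  exact ⟨h2, h3⟩

/-- superadditivity on at most two points -/
theorem superadd {ι : Type*} [Fintype ι] (hc : Fintype.card ι ≤ 2) {P N : ι → ι → ℝ} (hP : Psd P)
    (hN : Psd N) {β : ℝ} (hβ : 2 < β) :
    Psd (fun i j => sp β (P i j + N i j) - sp β (P i j) - sp β (N i j)) := by
  have hc' : (Fintype.card ι : ℝ) ≤ 2 := by exact_mod_cast hc
  refine ⟨fun i j => by
    show sp β (P i j + N i j) - sp β (P i j) - sp β (N i j) =
      sp β (P j i + N j i) - sp β (P j i) - sp β (N j i)
    rw [hP.1 i j, hN.1 i j], fun x => ?_⟩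
  have key := mono_path (fun i j l => sp β (P i j + l * N i j) - sp β (l * N i j))
    (fun i j l => β * ((ph (β - 1) (P i j + l * N i j) - ph (β - 1) (l * N i j)) * N i j)) x ?_ ?_
  · have e : qf (fun i j => sp β (P i j + N i j) - sp β (P i j) - sp β (N i j)) x =
        qf (fun i j => sp β (P i j + 1 * N i j) - sp β (1 * N i j)) x -
        qf (fun i j => sp β (P i j + 0 * N i j) - sp β (0 * N i j)) x := by
      simp only [qf, ← Finset.sum_sub_distrib]
      refine Finset.sum_congr rfl fun i _ => Finset.sum_congr rfl fun j _ => ?_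
      rw [one_mul, zero_mul, add_zero, sp_zero]
      ring
    rw [e]
    linarith
  · intro i j l
    have h1 : HasDerivAt (fun l : ℝ => l * N i j) (N i j) l := by
      simpa using (hasDerivAt_id l).mul_const (N i j)
    have h2 : HasDerivAt (fun l : ℝ => P i j + l * N i j) (N i j) l := h1.const_add (P i j)
    have h3 := (hasDerivAt_sp (by linarith : 1 < β) (P i j + l * N i j)).comp l h2
    have h4 := (hasDerivAt_sp (by linarith : 1 < β) (l * N i j)).comp l h1
    exact (h3.sub h4).congr_deriv (by ring)
  · intro l h0 _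
    have h1 : Psd (fun i j => ph (β - 1) (P i j + l * N i j) - ph (β - 1) (l * N i j)) := by
      refine psd_path (f := ph (β - 1)) (g := fun x => (β - 1) * sp (β - 1 - 1) x)
        (hasDerivAt_ph (by linarith)) (fun i j => by rw [hP.1 i j, hN.1 i j])
        (fun i j => by rw [hN.1 i j]) ?_ ?_
      · have e : (fun i j => P i j + l * N i j - l * N i j) = P := by
          funext i j; ring
        rw [e]
        exact hP
      · intro s hs _
        have h2 : Psd (fun i j => l * N i j + s * (P i j + l * N i j - l * N i j)) := by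
          have h3 := (psd_smul hN h0.le).add (psd_smul hP hs.le)
          have e : (fun i j => l * N i j + s * (P i j + l * N i j - l * N i j)) =
              fun i j => l * N i j + s * P i j := by
            funext i j; ring
          rw [e]
          exact h3
        exact psd_smul (sfh ι _ h2 (β - 1 - 1) (by linarith) (by linarith)).2 (by linarith)
    exact (psd_smul (h1.hadamard hN) (by linarith : (0 : ℝ) ≤ β)).2 x

end Pool.Agent.Helper11.BL
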