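import Pool.Agent.Helper11.BL.Leaf

/-!
# The signed cone property from a signed form of `DecSq`
-/

open Finset Pool.Agent.Helper71.CE Pool.Agent.Helper88.CE

namespace Pool.Agent.Helper11.BL

section

variable {W : Type*} [Fintype W] {H : SimpleGraph W}

theorem decTwo_of_sg (hD : ∀ (A : W → W → ℝ) (h : W → ℝ), InPG H A →
    Psd (fun i j => A i j - h i * h j) → Tame H (fun i j => A i j * (A i j - h i * h j))) :
    DecTwo H := by
  intro A hA
  have h := hD A (fun _ => 0) hA (by
    have e : (fun i j => A i j - (0 : ℝ) * 0) = A := by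
      funext i j
      ring
    rw [e]
    exact hA.1)
  have e : (fun i j => A i j * (A i j - (0 : ℝ) * 0)) = fun i j => A i j * A i j := by
    funext i j
    ring
  rw [e] at h
  exact h

theorem sc_sg (hD : ∀ (A : W → W → ℝ) (h : W → ℝ), InPG H A →
    Psd (fun i j => A i j - h i * h j) → Tame H (fun i j => A i j * (A i j - h i * h j)))
    {w : ℕ} (hw : ∀ Q : Finset W, H.IsClique Q → Q.card ≤ w) {β : ℝ}
    (hβ : (w : ℝ) < β) (hβ2 : 2 < β) : SC H Set.univ β := by
  classical
  refine sc_of_schur (fun A hA => pow_of_two (decTwo_of_sg hD) hw hβ.le hβ2.le hA) ?_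
  intro A k hA hX
  have h1 : Psd (fun i j => (A i j - k i * k j) * (ph (β - 1) (k i) * ph (β - 1) (k j))) :=
    hX.hadamard (psd_rankOne fun i => ph (β - 1) (k i))
  have h2 : Psd (fun i j => A i j * (ph (β - 1) (A i j) - ph (β - 1) (k i) * ph (β - 1) (k j))) := by
    refine ⟨fun i j => by
      show A i j * (ph (β - 1) (A i j) - ph (β - 1) (k i) * ph (β - 1) (k j)) =
        A j i * (ph (β - 1) (A j i) - ph (β - 1) (k j) * ph (β - 1) (k i))
      rw [hA.1.1 i j]
      ring, fun x => ?_⟩
    have key := mono_path
      (fun i j l => A i j * ph (β - 1) (k i * k j + l * (A i j - k i * k j)))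
      (fun i j l => A i j * ((β - 1) * sp (β - 1 - 1) (k i * k j + l * (A i j - k i * k j)) *
        (A i j - k i * k j))) x (fun i j l => ?_) fun l hl0 hl1 => ?_
    · have e : qf (fun i j => A i j * (ph (β - 1) (A i j) - ph (β - 1) (k i) * ph (β - 1) (k j))) x =
          qf (fun i j => A i j * ph (β - 1) (k i * k j + 1 * (A i j - k i * k j))) x -
          qf (fun i j => A i j * ph (β - 1) (k i * k j + 0 * (A i j - k i * k j))) x := by
        simp only [qf, ← Finset.sum_sub_distrib]
        refine Finset.sum_congr rfl fun i _ => Finset.sum_congr rfl fun j _ => ?_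
        rw [show k i * k j + 1 * (A i j - k i * k j) = A i j by ring,
          show k i * k j + 0 * (A i j - k i * k j) = k i * k j by ring, ph_mul]
        ring
      rw [e]
      linarith
    · have h3 : HasDerivAt (fun l : ℝ => k i * k j + l * (A i j - k i * k j))
          (A i j - k i * k j) l := by
        have := ((hasDerivAt_id l).mul_const (A i j - k i * k j)).const_add (k i * k j)
        simpa using this
      have h4 := (hasDerivAt_ph (β := β - 1) (by linarith)
        (k i * k j + l * (A i j - k i * k j))).comp l h3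
      exact h4.const_mul (A i j)
    · have h5 := hD A k hA hX
        (fun i j => sp (β - 1 - 1) (k i * k j + l * (A i j - k i * k j)))
        (fun i j => by rw [hA.1.1 i j, mul_comm (k i)]) fun Q hQ => ?_
      · have h6 := h5.2 x
        have e : qf (fun i j => A i j * ((β - 1) *
            sp (β - 1 - 1) (k i * k j + l * (A i j - k i * k j)) * (A i j - k i * k j))) x =
            (β - 1) * qf (fun i j => sp (β - 1 - 1) (k i * k j + l * (A i j - k i * k j)) *
              (A i j * (A i j - k i * k j))) x := by
          simp only [qf, Finset.mul_sum]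
          refine Finset.sum_congr rfl fun i _ => Finset.sum_congr rfl fun j _ => by ring
        rw [e]
        exact mul_nonneg (by linarith) h6
      · have hF : ∀ i, i ∈ Q.toFinset ↔ i ∈ Q := fun i => Set.mem_toFinset
        refine psdOn_of_restrict Q.toFinset hF ?_
        refine ((sfh Q.toFinset) (fun i j => k i * k j + l * (A i j - k i * k j))
          ((psd_line hX hl0.le).submatrix Subtype.val) (β - 1 - 1) (by linarith) ?_).2
        rw [Fintype.card_coe]
        have h1 := hw Q.toFinset (by rw [Set.coe_toFinset]; exact hQ)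
        have h2 : (Q.toFinset.card : ℝ) ≤ w := by exact_mod_cast h1
        linarith
  have e : (fun i j => sp β (A i j) - sp β (k i) * sp β (k j)) =
      fun i j => (A i j - k i * k j) * (ph (β - 1) (k i) * ph (β - 1) (k j)) +
        A i j * (ph (β - 1) (A i j) - ph (β - 1) (k i) * ph (β - 1) (k j)) := by
    funext i j
    rw [sp_eq_mul_ph, sp_eq_mul_ph, sp_eq_mul_ph]
    ring
  rw [e]
  exact h1.add h2

end

theorem sc_of_sg {V : Type*} [Fintype V] {G : SimpleGraph V} {S : Set V} {W : Type*} [Fintype W]
    {H : SimpleGraph W} (f : S → W) (hf : Function.Injective f)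
    (hfa : ∀ a b : S, G.Adj a b → H.Adj (f a) (f b))
    (hD : ∀ (A : W → W → ℝ) (h : W → ℝ), InPG H A →
      Psd (fun i j => A i j - h i * h j) → Tame H (fun i j => A i j * (A i j - h i * h j)))
    {w : ℕ} (hw : ∀ Q : Finset W, H.IsClique Q → Q.card ≤ w) {β : ℝ} (hβ : (w : ℝ) < β)
    (hβ2 : 2 < β) : SC G S β := SC.of_embed f hf hfa (sc_sg hD hw hβ hβ2)

end Pool.Agent.Helper11.BL
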