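import Pool.Agent.Helper11.BL.ScSg

/-!
# Gluing along cliques, for matrices with entries of any sign
-/

open Finset Pool.Agent.Helper71.CE Pool.Agent.Helper88.CE

namespace Pool.Agent.Helper11.BL

/-- superadditivity of the odd power `β` on fewer than `β` points -/
theorem superadd_of_card {ι : Type*} [Fintype ι] {P N : ι → ι → ℝ} (hP : Psd P)
    (hN : Psd N) {β : ℝ} (hc : (Fintype.card ι : ℝ) < β) (hβ : 2 < β) :
    Psd (fun i j => sp β (P i j + N i j) - sp β (P i j) - sp β (N i j)) := by
  refine ⟨fun i j => by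
    show sp β (P i j + N i j) - sp β (P i j) - sp β (N i j) =
      sp β (P j i + N j i) - sp β (P j i) - sp β (N j i)
    rw [hP.1 i j, hN.1 i j], fun x => ?_⟩
  have key := mono_path (fun i j l => sp β (P i j + l * N i j) - sp β (l * N i j))
    (fun i j l => β * ((ph (β - 1) (P i j + l * N i j) - ph (β - 1) (l * N i j)) * N i j)) x ?_ ?_
  · have e : qf (fun i j => sp β (P i j + N i j) - sp β (P i j) - sp β (N i j)) x =
        qf (fun i j => sp β (P i j + 1 * N i j) - sp β (1 * N i j)) x -
        qf (fun i j => sp β (P i j + 0 * N i j) - sp β (0 * N i j)) x := by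
      simp only [qf, ← Finset.sum_sub_distrib]
      refine Finset.sum_congr rfl fun i _ => Finset.sum_congr rfl fun j _ => ?_
      rw [one_mul, zero_mul, add_zero, sp_zero]
      ring
    rw [e]
    linarith
  · intro i j l
    have h1 : HasDerivAt (fun l : ℝ => l * N i j) (N i j) l := by
      simpa using (hasDerivAt_id l).mul_const (N i j)
    have h2 : HasDerivAt (fun l : ℝ => P i j + l * N i j) (N i j) l := h1.const_add (P i j)
    have h3 := (hasDerivAt_sp (by linarith : 1 < β) (P i j + l * N i j)).comp l h2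
    have h4 := (hasDerivAt_sp (by linarith : 1 < β) (l * N i j)).comp l h1
    exact (h3.sub h4).congr_deriv (by ring)
  · intro l h0 _
    have h1 : Psd (fun i j => ph (β - 1) (P i j + l * N i j) - ph (β - 1) (l * N i j)) := by
      refine psd_path (f := ph (β - 1)) (g := fun x => (β - 1) * sp (β - 1 - 1) x)
        (hasDerivAt_ph (by linarith)) (fun i j => by rw [hP.1 i j, hN.1 i j])
        (fun i j => by rw [hN.1 i j]) ?_ ?_
      · have e : (fun i j => P i j + l * N i j - l * N i j) = P := by
          funext i j; ring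
        rw [e]
        exact hP
      · intro s hs _
        have h2 : Psd (fun i j => l * N i j + s * (P i j + l * N i j - l * N i j)) := by
          have h3 := (psd_smul hN h0.le).add (psd_smul hP hs.le)
          have e : (fun i j => l * N i j + s * (P i j + l * N i j - l * N i j)) =
              fun i j => l * N i j + s * P i j := by
            funext i j; ring
          rw [e]
          exact h3
        exact psd_smul (sfh ι _ h2 (β - 1 - 1) (by linarith) (by linarith)).2 (by linarith)
    exact (psd_smul (h1.hadamard hN) (by linarith : (0 : ℝ) ≤ β)).2 x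

/-- the odd power `β` preserves positivity for all matrices with pattern `H` on `S`, with entries of
any sign -/
def FP {ι : Type*} [Fintype ι] (H : SimpleGraph ι) (S : Set ι) (β : ℝ) : Prop :=
  ∀ A : ι → ι → ℝ, Psd A → (∀ i j, i ≠ j → ¬ H.Adj i j → A i j = 0) →
    (∀ i, i ∉ S → A i i = 0) → Psd (fun a b => sp β (A a b))

/-- gluing along a clique -/
theorem FP.glue {ι : Type*} [Fintype ι] {H : SimpleGraph ι} {S T : Set ι}
    (hK : H.IsClique (S ∩ T)) {β : ℝ} (hc : ((S ∩ T).ncard : ℝ) < β) (hβ : 2 < β)
    (h : ∀ a ∈ S, ∀ b ∈ T, H.Adj a b → a ∈ T ∨ b ∈ S) (hS : FP H S β) (hT : FP H T β) :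
    FP H (S ∪ T) β := by
  classical
  intro A hA hAG hAd
  obtain ⟨A1, A2, h1, h2, hs, hz1, hz2⟩ := split_vertex hA (S := S) (T := T)
    (fun a b ha hb ha' hb' => by
      refine hAG a b (fun e => hb' (e ▸ ha)) fun hadj => ?_
      rcases h a ha b hb hadj with h | h
      · exact ha' h
      · exact hb' h) (fun i hi hj => hAd i fun h => h.elim hi hj)
  have hrow : ∀ i b, i ∉ S ∩ T → (A1 i b = 0 ∧ A2 i b = A i b) ∨ (A2 i b = 0 ∧ A1 i b = A i b) := by
    intro i b hi
    have e := hs i b
    by_cases hiS : i ∈ S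
    · have hiT : i ∉ T := fun hiT => hi ⟨hiS, hiT⟩
      right
      rw [hz2 i b hiT, add_zero] at e
      exact ⟨hz2 i b hiT, e.symm⟩
    · left
      rw [hz1 i b hiS, zero_add] at e
      exact ⟨hz1 i b hiS, e.symm⟩
  have hent : ∀ i j, i ≠ j → ¬ H.Adj i j → A1 i j = 0 ∧ A2 i j = 0 := by
    intro i j hij hn
    have h0 := hAG i j hij hn
    by_cases hi : i ∈ S ∩ T
    · by_cases hj : j ∈ S ∩ T
      · exact absurd (hK hi hj hij) hn
      · rw [h1.1 i j, h2.1 i j]
        rw [hA.1 i j] at h0
        rcases hrow j i hj with h | h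
        · exact ⟨h.1, h.2.trans h0⟩
        · exact ⟨h.2.trans h0, h.1⟩
    · rcases hrow i j hi with h | h
      · exact ⟨h.1, h.2.trans h0⟩
      · exact ⟨h.2.trans h0, h.1⟩
  have k1 := hS A1 h1 (fun i j hij hn => (hent i j hij hn).1) fun i hi => hz1 i _ hi
  have k2 := hT A2 h2 (fun i j hij hn => (hent i j hij hn).2) fun i hi => hz2 i _ hi
  set E : ι → ι → ℝ := fun a b => sp β (A a b) - sp β (A1 a b) - sp β (A2 a b) with hE
  have k3 : Psd E := by
    refine psd_of_supported (fun a b => ?_) (S ∩ T).toFinset (fun a b ha => ?_) ?_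
    · show sp β (A a b) - sp β (A1 a b) - sp β (A2 a b) =
        sp β (A b a) - sp β (A1 b a) - sp β (A2 b a)
      rw [hA.1 a b, h1.1 a b, h2.1 a b]
    · rw [Set.mem_toFinset] at ha
      show sp β (A a b) - sp β (A1 a b) - sp β (A2 a b) = 0
      rcases hrow a b ha with h | h
      · rw [h.1, h.2, sp_zero]; ring
      · rw [h.1, h.2, sp_zero]; ring
    · have hc' : (Fintype.card (S ∩ T).toFinset : ℝ) < β := by
        rw [Fintype.card_coe, ← Set.ncard_eq_toFinset_card']
        exact hc
      have k := superadd_of_card (P := fun i j : (S ∩ T).toFinset => A1 i j)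
        (N := fun i j : (S ∩ T).toFinset => A2 i j) (h1.submatrix Subtype.val)
        (h2.submatrix Subtype.val) hc' hβ
      have e : (fun i j : (S ∩ T).toFinset => E i j) =
          fun i j : (S ∩ T).toFinset => sp β (A1 i j + A2 i j) - sp β (A1 i j) - sp β (A2 i j) := by
        funext i j
        show sp β (A i j) - sp β (A1 i j) - sp β (A2 i j) = _
        rw [hs i j]
      rw [e]
      exact k
  have e : (fun a b => sp β (A a b)) = fun a b => E a b + (sp β (A1 a b) + sp β (A2 a b)) := by
    funext a b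
    simp only [hE]
    ring
  rw [e]
  exact k3.add (k1.add k2)

/-- small sets -/
theorem FP.small {ι : Type*} [Fintype ι] {H : SimpleGraph ι} {S : Set ι} {β : ℝ} (hβ0 : 0 < β)
    (h : (S.ncard : ℝ) - 2 < β) : FP H S β := by
  classical
  intro A hA hAG hAd
  refine psd_of_range (κ := S) (sp_symm hA β) Subtype.val (fun a b ha => ?_) ?_
  · have hi : a ∉ S := fun hi => ha ⟨a, hi⟩ rfl
    show sp β (A a b) = 0
    rw [row_zero hA (hAd a hi) b, sp_zero]
  · refine ((sfh S) (fun a b => A a b) (hA.submatrix _) β hβ0 ?_).2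
    have h2 : Fintype.card S = S.ncard := by
      rw [← Nat.card_eq_fintype_card, Nat.card_coe_set_eq]
    rw [h2]
    exact h

/-- subgraphs -/
theorem FP.of_embed {ι κ : Type*} [Fintype ι] [Fintype κ] {G : SimpleGraph ι} {S : Set ι}
    {H : SimpleGraph κ} (f : S → κ) (hf : Function.Injective f)
    (hfa : ∀ a b : S, G.Adj a b → H.Adj (f a) (f b)) {β : ℝ} (h : FP H Set.univ β) :
    FP G S β := by
  classical
  intro M hM hMG hMd
  set A : S → S → ℝ := fun a b => M a b with hA
  have hAp : Psd A := hM.submatrix _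
  have key := h (push f A) ⟨push_symm _ hAp.1, fun x => ?_⟩
    (fun i j hij hn => ?_) (fun i hi => absurd (Set.mem_univ i) hi)
  · refine psd_of_range (κ := S) (sp_symm hM β) Subtype.val (fun a b ha => ?_) ?_
    · have hi : a ∉ S := fun hi => ha ⟨a, hi⟩ rfl
      show sp β (M a b) = 0
      rw [row_zero hM (hMd a hi) b, sp_zero]
    · have h2 := key.submatrix f
      have e : (fun a b => sp β (push f A (f a) (f b))) = fun a b => sp β (A a b) := by
        funext a b
        rw [push_apply hf]
      rw [e] at h2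
      exact h2
  · rw [qf_push]
    exact hAp.2 _
  · unfold push
    refine Finset.sum_eq_zero fun a _ => Finset.sum_eq_zero fun b _ => ?_
    split_ifs with hh
    · refine hMG _ _ (fun e => hij ?_) fun e => hn ?_
      · rw [← hh.1, ← hh.2, Subtype.ext e]
      · rw [← hh.1, ← hh.2]
        exact hfa _ _ e
    · rfl

/-- the cone vertex together with `S` -/
def up {V : Type*} (S : Set V) : Set (Option V) := {none} ∪ some '' S

theorem mem_up_some {V : Type*} {S : Set V} {i : V} : some i ∈ up S ↔ i ∈ S := by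
  simp [up]

theorem up_inter {V : Type*} (S T : Set V) : up S ∩ up T = up (S ∩ T) := by
  ext a
  rcases a with _ | i
  · simp [up]
  · rw [Set.mem_inter_iff, mem_up_some, mem_up_some, mem_up_some, Set.mem_inter_iff]

theorem up_union {V : Type*} (S T : Set V) : up S ∪ up T = up (S ∪ T) := by
  ext a
  rcases a with _ | i
  · simp [up]
  · rw [Set.mem_union, mem_up_some, mem_up_some, mem_up_some, Set.mem_union]

theorem ncard_up {V : Type*} [Finite V] (S : Set V) : (up S).ncard ≤ S.ncard + 1 := by
  have h1 := Set.ncard_union_le ({none} : Set (Option V)) (some '' S)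
  rw [Set.ncard_singleton, Set.ncard_image_of_injective _ (Option.some_injective V)] at h1
  unfold up
  omega

/-- the fully signed property of cones -/
def FS {V : Type*} [Fintype V] (H : SimpleGraph V) (S : Set V) (β : ℝ) : Prop :=
  FP (Pool.Agent.Helper71.CE.cone H) (up S) β

theorem FS.glue {V : Type*} [Fintype V] {H : SimpleGraph V} {S T : Set V}
    (hK : H.IsClique (S ∩ T)) {β : ℝ} (hc : ((S ∩ T).ncard : ℝ) + 1 < β) (hβ : 2 < β)
    (h : ∀ a ∈ S, ∀ b ∈ T, H.Adj a b → a ∈ T ∨ b ∈ S) (hS : FS H S β) (hT : FS H T β) :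
    FS H (S ∪ T) β := by
  unfold FS
  rw [← up_union]
  refine FP.glue ?_ ?_ hβ ?_ hS hT
  · rw [up_inter]
    exact cone_isClique hK
  · rw [up_inter]
    have h1 : ((up (S ∩ T)).ncard : ℝ) ≤ (S ∩ T).ncard + 1 := by exact_mod_cast ncard_up _
    linarith
  · rintro (_ | a) ha (_ | b) hb hadj
    · exact absurd rfl hadj.ne
    · exact Or.inl (Or.inl rfl)
    · exact Or.inr (Or.inl rfl)
    · rw [mem_up_some] at ha hb
      rw [mem_up_some, mem_up_some]
      exact h a ha b hb (cone_adj_some.1 hadj)

theorem FS.small {V : Type*} [Fintype V] {H : SimpleGraph V} {S : Set V} {β : ℝ} (hβ0 : 0 < β)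
    (h : (S.ncard : ℝ) - 1 < β) : FS H S β := by
  refine FP.small hβ0 ?_
  have h1 : ((up S).ncard : ℝ) ≤ S.ncard + 1 := by exact_mod_cast ncard_up _
  linarith

theorem FS.of_embed {V W : Type*} [Fintype V] [Fintype W] {G : SimpleGraph V} {S : Set V}
    {H : SimpleGraph W} (f : S → W) (hf : Function.Injective f)
    (hfa : ∀ a b : S, G.Adj a b → H.Adj (f a) (f b)) {β : ℝ}
    (h : FP (Pool.Agent.Helper71.CE.cone H) Set.univ β) : FS G S β := by
  let g : up S → Option W := fun a => match a with
    | ⟨none, _⟩ => none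
    | ⟨some i, hi⟩ => some (f ⟨i, mem_up_some.1 hi⟩)
  refine FP.of_embed g ?_ ?_ h
  · rintro ⟨_ | a, ha⟩ ⟨_ | b, hb⟩ hab
    · rfl
    · exact absurd hab (by simp [g])
    · exact absurd hab (by simp [g])
    · have h1 : some (f ⟨a, mem_up_some.1 ha⟩) = some (f ⟨b, mem_up_some.1 hb⟩) := hab
      have h2 := congrArg Subtype.val (hf (Option.some_injective _ h1))
      have h3 : a = b := h2
      exact Subtype.ext (congrArg some h3)
  · rintro ⟨_ | a, ha⟩ ⟨_ | b, hb⟩ hab
    · exact absurd rfl hab.ne
    · exact cone_adj_none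
    · exact cone_adj_none.symm
    · exact cone_adj_some.2 (hfa ⟨a, mem_up_some.1 ha⟩ ⟨b, mem_up_some.1 hb⟩
        (cone_adj_some.1 hab))

/-- the fully signed property implies the signed cone property, also for subgraphs -/
theorem FS.sc {V : Type*} [Fintype V] {G H : SimpleGraph V} {S : Set V}
    (hG : ∀ a ∈ S, ∀ b ∈ S, G.Adj a b → H.Adj a b) {β : ℝ} (h : FS H S β) : SC G S β := by
  intro M hM _ hMG hMd
  refine h M hM ?_ ?_
  · rintro (_ | i) (_ | j) hij hn
    · exact absurd rfl hij
    · exact absurd cone_adj_none hn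
    · exact absurd cone_adj_none.symm hn
    · by_cases hi : i ∈ S
      · by_cases hj : j ∈ S
        · refine hMG i j (fun e => hij (by rw [e])) fun hadj => hn (cone_adj_some.2 (hG i hi j hj hadj))
        · rw [hM.1]
          exact row_zero hM (hMd j hj) _
      · exact row_zero hM (hMd i hi) _
  · rintro (_ | i) hi
    · exact absurd (Or.inl rfl) hi
    · exact hMd i fun h => hi (mem_up_some.2 h)

/-- the fully signed property implies the power property, also for subgraphs -/
theorem FP.pw {V : Type*} [Fintype V] {G H : SimpleGraph V} {S : Set V}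
    (hG : ∀ a ∈ S, ∀ b ∈ S, G.Adj a b → H.Adj a b) {β : ℝ} (h : FP H S β) : PW G S β := by
  rintro A ⟨hA, hA0, hAG⟩ hAd
  have h1 := h A hA (fun i j hij hn => ?_) hAd
  · have e : (fun a b => sp β (A a b)) = hpow A β := by
      funext a b
      exact sp_of_nonneg (hA0 a b)
    rw [e] at h1
    exact h1
  · by_cases hi : i ∈ S
    · by_cases hj : j ∈ S
      · exact hAG i j hij fun hadj => hn (hG i hi j hj hadj)
      · rw [hA.1]
        exact row_zero hA (hAd j hj) _
    · exact row_zero hA (hAd i hi) _

/-- powers from the square condition for matrices with entries of any sign -/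
theorem FP.of_two {W : Type*} [Fintype W] {H : SimpleGraph W}
    (hD : ∀ A : W → W → ℝ, Psd A → (∀ i j, i ≠ j → ¬ H.Adj i j → A i j = 0) →
      Tame H (fun i j => A i j * A i j))
    {w : ℕ} (hw : ∀ Q : Finset W, H.IsClique Q → Q.card ≤ w) {β : ℝ}
    (hβ : (w : ℝ) < β) (hβ2 : 2 < β) : FP H Set.univ β := by
  classical
  intro A hA hAG _
  have h := hD A hA hAG (fun i j => sp (β - 1 - 1) (A i j)) (fun i j => by rw [hA.1 i j])
    fun Q hQ => ?_
  · have e : (fun i j => sp β (A i j)) = fun i j => sp (β - 1 - 1) (A i j) * (A i j * A i j) := by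
      funext i j
      rw [sp_eq_mul_ph, ph_eq_mul_sp]
      ring
    rw [e]
    exact h
  · have hF : ∀ i, i ∈ Q.toFinset ↔ i ∈ Q := fun i => Set.mem_toFinset
    refine psdOn_of_restrict Q.toFinset hF ?_
    refine ((sfh Q.toFinset) (fun i j => A i j) (hA.submatrix Subtype.val) (β - 1 - 1)
      (by linarith) ?_).2
    rw [Fintype.card_coe]
    have h1 := hw Q.toFinset (by rw [Set.coe_toFinset]; exact hQ)
    have h2 : (Q.toFinset.card : ℝ) ≤ w := by exact_mod_cast h1
    linarith

end Pool.Agent.Helper11.BL
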